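import Pool.Agent.Helper80.NIL.CEN

/-! Project NW (MP_266b34_co), packet NIL. -/

set_option autoImplicit false

namespace Pool.Agent.Helper80.NIL

open Pool.Agent.Helper61.NW

universe u

theorem nil : NilStmt.{u} := by
  intro Γ _ hFG hinf hN
  obtain ⟨z, hz, hz1⟩ := cen Γ hFG hinf hN
  have hzle : Subgroup.zpowers z ≤ Subgroup.center Γ := by
    rw [Subgroup.zpowers_le, Subgroup.mem_center_iff]
    exact hz
  have hnorm : (Subgroup.zpowers z).Normal := by
    refine ⟨fun a ha g => ?_⟩
    have h := Subgroup.mem_center_iff.1 (hzle ha) g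
    rw [h]
    simpa using ha
  rcases finite_or_infinite (Γ ⧸ Subgroup.zpowers z) with hf | hi
  · left
    have h2 : (Subgroup.zpowers z).FiniteIndex := Subgroup.finiteIndex_of_finite_quotient
    exact Subgroup.finiteIndex_of_le hzle
  · have hNq : Group.IsNilpotent (Γ ⧸ Subgroup.zpowers z) := inferInstance
    have hFq : Group.FG (Γ ⧸ Subgroup.zpowers z) := inferInstance
    obtain ⟨q, hq, hq1⟩ := cen (Γ ⧸ Subgroup.zpowers z) hFq hi hNq
    obtain ⟨w, rfl⟩ := QuotientGroup.mk_surjective q
    have hcom : ∀ g : Γ, w * g * w⁻¹ * g⁻¹ ∈ Subgroup.zpowers z := by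
      intro g
      rw [← QuotientGroup.eq_one_iff]
      have h := hq (g : Γ ⧸ Subgroup.zpowers z)
      rw [QuotientGroup.mk_mul, QuotientGroup.mk_mul, QuotientGroup.mk_mul, QuotientGroup.mk_inv,
        QuotientGroup.mk_inv, ← h]
      group
    have hind : ∀ i j : ℤ, w ^ i * z ^ j = 1 → i = 0 ∧ j = 0 := by
      intro i j hij
      have hi0 : i = 0 := by
        apply hq1
        have h := congrArg (fun y : Γ => (y : Γ ⧸ Subgroup.zpowers z)) hij
        have hzj : ((z ^ j : Γ) : Γ ⧸ Subgroup.zpowers z) = 1 :=
          (QuotientGroup.eq_one_iff _).2 ⟨j, rfl⟩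
        simp only [QuotientGroup.mk_mul, hzj, mul_one, QuotientGroup.mk_one] at h
        rw [← QuotientGroup.mk_zpow]
        exact h
      subst hi0
      refine ⟨rfl, hz1 j ?_⟩
      simpa using hij
    by_cases hidx : (Subgroup.closure {z, w} : Subgroup Γ).FiniteIndex
    · left
      have hwc : ∀ g : Γ, w * g * w⁻¹ * g⁻¹ ∈ Subgroup.center Γ := fun g => hzle (hcom g)
      have hDk : Subgroup.closure {z, w} ≤ (comHom w hwc).ker := by
        rw [Subgroup.closure_le]
        rintro y (rfl | rfl)
        · change y ∈ (comHom w hwc).ker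
          rw [MonoidHom.mem_ker]
          apply Subtype.ext
          change w * y * w⁻¹ * y⁻¹ = 1
          rw [hz w]
          group
        · change y ∈ (comHom y hwc).ker
          rw [MonoidHom.mem_ker]
          apply Subtype.ext
          change y * y * y⁻¹ * y⁻¹ = 1
          group
      have htriv : ∀ g : Γ, w * g * w⁻¹ * g⁻¹ = 1 := by
        intro g
        obtain ⟨n, hn, -, hn2⟩ := Subgroup.exists_pow_mem_of_index_ne_zero hidx.index_ne_zero g
        have h1 : comHom w hwc (g ^ n) = 1 := MonoidHom.mem_ker.1 (hDk hn2)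
        rw [map_pow] at h1
        have h2 : (w * g * w⁻¹ * g⁻¹) ^ n = 1 := by
          have h3 := congrArg (fun y : Subgroup.center Γ => (y : Γ)) h1
          simp only [Subgroup.coe_pow, Subgroup.coe_one] at h3
          exact h3
        obtain ⟨j, hj⟩ := hcom g
        have hj' : z ^ j = w * g * w⁻¹ * g⁻¹ := hj
        rw [← hj', ← zpow_natCast, ← zpow_mul] at h2
        have h4 := hz1 _ h2
        have h5 : j = 0 := by
          rcases mul_eq_zero.1 h4 with h | h
          · exact h
          · omega
        rw [← hj', h5, zpow_zero]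
      have hwcen : w ∈ Subgroup.center Γ := by
        rw [Subgroup.mem_center_iff]
        intro g
        have h := congrArg (fun y => y * g * w) (htriv g)
        have h' : w * g = g * w := by simpa [mul_assoc] using h
        exact h'.symm
      have hle : Subgroup.closure {z, w} ≤ Subgroup.center Γ := by
        rw [Subgroup.closure_le]
        rintro y (rfl | rfl)
        · exact hzle (Subgroup.mem_zpowers y)
        · exact hwcen
      exact Subgroup.finiteIndex_of_le hle
    · right
      exact ⟨z, w, hz, hind, hidx⟩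

end Pool.Agent.Helper80.NIL
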