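import Pool.Agent.Helper61.NW.Goals2
import Pool.Agent.Helper80.NIL.NILP
import Pool.Agent.Helper13.NW.SCH

/-! Project NW+ (MP_266b34_co), packet VNL. -/

set_option autoImplicit false

namespace Pool.Agent.Helper80.NIL

open Pool.Agent.Helper61.NW

universe u

theorem fin_map {Γ : Type u} [Group Γ] (N : Subgroup Γ) (hN : N.FiniteIndex) (H : Subgroup N)
    (hH : H.FiniteIndex) : (H.map N.subtype).FiniteIndex := by
  refine ⟨?_⟩
  rw [Subgroup.index_map_subtype]
  exact mul_ne_zero hH.index_ne_zero hN.index_ne_zero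

theorem closure_map {Γ : Type u} [Group Γ] (N : Subgroup Γ) (z w : N) :
    (Subgroup.closure ({z, w} : Set N)).map N.subtype =
      Subgroup.closure ({(z : Γ), (w : Γ)} : Set Γ) := by
  rw [MonoidHom.map_closure]
  congr 1
  rw [Set.image_pair]
  rfl

theorem big_two {Γ : Type u} [Group Γ] (N : Subgroup Γ) (hN : N.FiniteIndex) (h : Big N) :
    Big2 Γ := by
  obtain ⟨z, w, hz, hind, hidx⟩ := h
  refine ⟨z, w, ?_, ?_, ?_, ?_⟩
  · have := congrArg (fun x : N => (x : Γ)) (hz w)
    simpa using this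
  · intro i j hij
    apply hind
    apply Subtype.ext
    push_cast
    exact hij
  · refine (Set.finite_range fun q : Γ ⧸ N => q.out * (z : Γ) * q.out⁻¹).subset ?_
    rintro _ ⟨g, rfl⟩
    refine ⟨(g⁻¹ : Γ), ?_⟩
    obtain ⟨n, hn⟩ := QuotientGroup.mk_out_eq_mul N g⁻¹
    change (((g⁻¹ : Γ) : Γ ⧸ N)).out * (z : Γ) * (((g⁻¹ : Γ) : Γ ⧸ N)).out⁻¹ = g⁻¹ * z * g
    rw [hn]
    have h1 := congrArg (fun x : N => (x : Γ)) (hz n)
    have h2 : (n : Γ) * z = z * n := by simpa using h1
    calc g⁻¹ * (n : Γ) * z * (g⁻¹ * (n : Γ))⁻¹ = g⁻¹ * ((n : Γ) * z) * (n : Γ)⁻¹ * g := by group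
      _ = g⁻¹ * z * g := by rw [h2]; group
  · intro hf
    apply hidx
    rw [← closure_map] at hf
    refine ⟨?_⟩
    have h1 := hf.index_ne_zero
    rw [Subgroup.index_map_subtype] at h1
    exact left_ne_zero_of_mul h1

theorem case_one {N : Type u} [Group N] (h : N →* Multiplicative ℤ)
    (hs : Function.Surjective h) (hk : (h.ker : Set N).Finite) :
    ∃ c : N, (Subgroup.zpowers c).FiniteIndex := by
  obtain ⟨c, hc⟩ := hs (Multiplicative.ofAdd 1)
  refine ⟨c, ?_⟩
  have : Finite (h.ker : Set N) := hk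
  have hfin : Finite (N ⧸ Subgroup.zpowers c) := by
    refine Finite.of_surjective (fun k : (h.ker : Set N) => ((k : N) : N ⧸ Subgroup.zpowers c)) ?_
    intro q
    obtain ⟨g, rfl⟩ := QuotientGroup.mk_surjective q
    refine ⟨⟨g * c ^ (-(Multiplicative.toAdd (h g))), ?_⟩, ?_⟩
    · change _ ∈ h.ker
      rw [MonoidHom.mem_ker, map_mul, map_zpow, hc]
      apply Multiplicative.toAdd.injective
      simp
    · change ((g * c ^ (-(Multiplicative.toAdd (h g))) : N) : N ⧸ Subgroup.zpowers c) = (g : N ⧸ _)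
      rw [QuotientGroup.eq]
      refine ⟨Multiplicative.toAdd (h g), ?_⟩
      change c ^ (Multiplicative.toAdd (h g)) = _
      rw [zpow_neg]
      group
  exact Subgroup.finiteIndex_of_finite_quotient

theorem case_two {N : Type u} [Group N] (hcen : (Subgroup.center N).FiniteIndex)
    (h : N →* Multiplicative (ℤ × ℤ))
    (hs : Function.Surjective h) (hk : (h.ker : Set N).Finite) :
    ∃ A : Subgroup N, A.FiniteIndex ∧ Nonempty (A ≃* Multiplicative (ℤ × ℤ)) := by
  obtain ⟨s, hs1⟩ := hs (Multiplicative.ofAdd (1, 0))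
  obtain ⟨t, ht1⟩ := hs (Multiplicative.ofAdd (0, 1))
  set m := (Subgroup.center N).index with hm
  have hm0 : m ≠ 0 := hcen.index_ne_zero
  have hsc : s ^ m ∈ Subgroup.center N := Subgroup.pow_index_mem _ s
  have htc : t ^ m ∈ Subgroup.center N := Subgroup.pow_index_mem _ t
  have hsz : ∀ (i : ℤ) (g : N), g * (s ^ m) ^ i = (s ^ m) ^ i * g := fun i g =>
    Subgroup.mem_center_iff.1 ((Subgroup.center N).zpow_mem hsc i) g
  have htz : ∀ (i : ℤ) (g : N), g * (t ^ m) ^ i = (t ^ m) ^ i * g := fun i g =>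
    Subgroup.mem_center_iff.1 ((Subgroup.center N).zpow_mem htc i) g
  let φ : Multiplicative (ℤ × ℤ) →* N :=
    { toFun := fun p => (s ^ m) ^ (Multiplicative.toAdd p).1 * (t ^ m) ^ (Multiplicative.toAdd p).2
      map_one' := by simp
      map_mul' := by
        intro p q
        rw [toAdd_mul, Prod.fst_add, Prod.snd_add, zpow_add, zpow_add]
        have h1 := hsz (Multiplicative.toAdd q).1 ((t ^ m) ^ (Multiplicative.toAdd p).2)
        calc (s ^ m) ^ (Multiplicative.toAdd p).1 * (s ^ m) ^ (Multiplicative.toAdd q).1 *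
              ((t ^ m) ^ (Multiplicative.toAdd p).2 * (t ^ m) ^ (Multiplicative.toAdd q).2)
            = (s ^ m) ^ (Multiplicative.toAdd p).1 * ((s ^ m) ^ (Multiplicative.toAdd q).1 *
              (t ^ m) ^ (Multiplicative.toAdd p).2) * (t ^ m) ^ (Multiplicative.toAdd q).2 := by
              simp only [mul_assoc]
          _ = _ := by rw [← h1]; simp only [mul_assoc] }
  have hφ : ∀ p, h (φ p) = Multiplicative.ofAdd
      ((m : ℤ) * (Multiplicative.toAdd p).1, (m : ℤ) * (Multiplicative.toAdd p).2) := by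
    intro p
    change h ((s ^ m) ^ (Multiplicative.toAdd p).1 * (t ^ m) ^ (Multiplicative.toAdd p).2) = _
    rw [map_mul, map_zpow, map_zpow, map_pow, map_pow, hs1, ht1]
    apply Multiplicative.toAdd.injective
    rw [toAdd_mul, toAdd_zpow, toAdd_zpow, toAdd_pow, toAdd_pow]
    ext <;> simp [mul_comm]
  have hinj : Function.Injective φ := by
    intro p q hpq
    have h1 := congrArg (fun x => Multiplicative.toAdd (h x)) hpq
    simp only [hφ, toAdd_ofAdd] at h1
    rw [Prod.mk.injEq] at h1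
    have hm' : (m : ℤ) ≠ 0 := by exact_mod_cast hm0
    apply Multiplicative.toAdd.injective
    exact Prod.ext (mul_left_cancel₀ hm' h1.1) (mul_left_cancel₀ hm' h1.2)
  refine ⟨φ.range, ?_, ⟨(MonoidHom.ofInjective hinj).symm⟩⟩
  have : Finite (h.ker : Set N) := hk
  have hfin : Finite (N ⧸ φ.range) := by
    refine Finite.of_surjective (fun k : Prod (h.ker : Set N) (Fin m × Fin m) =>
      (((k.1 : N) * s ^ (k.2.1 : ℕ) * t ^ (k.2.2 : ℕ) : N) : N ⧸ φ.range)) ?_
    intro q
    obtain ⟨g, rfl⟩ := QuotientGroup.mk_surjective q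
    have hmpos : (0 : ℤ) < m := by omega
    set x := (Multiplicative.toAdd (h g)).1 with hx
    set y := (Multiplicative.toAdd (h g)).2 with hy
    have hx1 := Int.emod_nonneg x hmpos.ne'
    have hx2 := Int.emod_lt_of_pos x hmpos
    have hy1 := Int.emod_nonneg y hmpos.ne'
    have hy2 := Int.emod_lt_of_pos y hmpos
    have hx3 := Int.mul_ediv_add_emod x m
    have hy3 := Int.mul_ediv_add_emod y m
    let r : Fin m := ⟨(x % m).toNat, by omega⟩
    let r' : Fin m := ⟨(y % m).toNat, by omega⟩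
    let p : Multiplicative (ℤ × ℤ) := Multiplicative.ofAdd (x / m, y / m)
    refine ⟨(⟨g * (φ p)⁻¹ * (t ^ (r' : ℕ))⁻¹ * (s ^ (r : ℕ))⁻¹, ?_⟩, r, r'), ?_⟩
    · change _ ∈ h.ker
      rw [MonoidHom.mem_ker, map_mul, map_mul, map_mul, map_inv, map_inv, map_inv, hφ, map_pow,
        map_pow, hs1, ht1]
      apply Multiplicative.toAdd.injective
      rw [toAdd_mul, toAdd_mul, toAdd_mul, toAdd_inv, toAdd_inv, toAdd_inv, toAdd_pow, toAdd_pow,
        toAdd_one]
      simp only [toAdd_ofAdd]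
      ext
      · change (Multiplicative.toAdd (h g)).1 + -((m : ℤ) * (x / m)) + -(((r' : ℕ) • ((0 : ℤ), (1 : ℤ))).1) +
          -(((r : ℕ) • ((1 : ℤ), (0 : ℤ))).1) = 0
        rw [Prod.smul_fst, Prod.smul_fst, ← hx]
        have : ((r : ℕ) : ℤ) = x % m := Int.toNat_of_nonneg hx1
        simp only [nsmul_eq_mul, this]
        omega
      · change (Multiplicative.toAdd (h g)).2 + -((m : ℤ) * (y / m)) + -(((r' : ℕ) • ((0 : ℤ), (1 : ℤ))).2) +
          -(((r : ℕ) • ((1 : ℤ), (0 : ℤ))).2) = 0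
        rw [Prod.smul_snd, Prod.smul_snd, ← hy]
        have : ((r' : ℕ) : ℤ) = y % m := Int.toNat_of_nonneg hy1
        simp only [nsmul_eq_mul, this]
        omega
    · change ((g * (φ p)⁻¹ * (t ^ (r' : ℕ))⁻¹ * (s ^ (r : ℕ))⁻¹ * s ^ (r : ℕ) * t ^ (r' : ℕ) : N) :
        N ⧸ φ.range) = (g : N ⧸ _)
      rw [QuotientGroup.eq]
      refine ⟨p, ?_⟩
      group
  exact Subgroup.finiteIndex_of_finite_quotient

theorem vnl : VnlStmt.{u} := by
  intro Γ _ hFG hinf ⟨N, hN, hnil⟩
  have hNfg : Group.FG N := inferInstance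
  have hNinf : Infinite N := by
    by_contra hcon
    rw [not_infinite_iff_finite] at hcon
    have : Finite Γ := (Subgroup.finite_iff_finite_and_finiteIndex (H := N)).2 ⟨hcon, hN⟩
    exact not_finite Γ
  rcases nil N hNfg hNinf hnil with hc | hB
  · rcases Pool.Agent.Helper13.NW.sch N hNfg hNinf hc with hB | ⟨h, hs, hk⟩ | ⟨h, hs, hk⟩
    · exact Or.inl (big_two N hN hB)
    · obtain ⟨c, hc⟩ := case_one h hs hk
      refine Or.inr (Or.inr ⟨c, ?_⟩)
      have h1 := fin_map N hN _ hc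
      rw [MonoidHom.map_zpowers] at h1
      exact h1
    · obtain ⟨A, hA, ⟨e⟩⟩ := case_two hc h hs hk
      refine Or.inr (Or.inl ⟨A.map N.subtype, fin_map N hN _ hA, ⟨?_⟩⟩)
      exact (A.equivMapOfInjective N.subtype N.subtype_injective).symm.trans e
  · exact Or.inl (big_two N hN hB)

end Pool.Agent.Helper80.NIL
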