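import Mathlib

/-! Project NIL (MP_266b34_co), group theory: central elements of infinite order. -/

set_option autoImplicit false

namespace Pool.Agent.Helper80.NIL

universe u

/-- If `x` is central modulo the centre, `g ↦ x g x⁻¹ g⁻¹` is a homomorphism to the centre. -/
noncomputable def comHom {G : Type u} [Group G] (x : G)
    (hx : ∀ g : G, x * g * x⁻¹ * g⁻¹ ∈ Subgroup.center G) : G →* Subgroup.center G where
  toFun g := ⟨x * g * x⁻¹ * g⁻¹, hx g⟩
  map_one' := by
    apply Subtype.ext
    simp
  map_mul' a b := by
    apply Subtype.ext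
    change x * (a * b) * x⁻¹ * (a * b)⁻¹ = x * a * x⁻¹ * a⁻¹ * (x * b * x⁻¹ * b⁻¹)
    have h := Subgroup.mem_center_iff.1 (hx b) a
    calc x * (a * b) * x⁻¹ * (a * b)⁻¹ = x * a * x⁻¹ * (x * b * x⁻¹ * b⁻¹) * a⁻¹ := by group
      _ = x * a * x⁻¹ * a⁻¹ * (a * (x * b * x⁻¹ * b⁻¹)) * a⁻¹ := by group
      _ = x * a * x⁻¹ * a⁻¹ * ((x * b * x⁻¹ * b⁻¹) * a) * a⁻¹ := by rw [h]
      _ = x * a * x⁻¹ * a⁻¹ * (x * b * x⁻¹ * b⁻¹) := by group

theorem finite_of_comm_torsion {Z : Type u} [Group Z] [Group.FG Z]
    (hc : ∀ a b : Z, a * b = b * a) (ht : ∀ z : Z, IsOfFinOrder z) : Finite Z := by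
  let _ : CommGroup Z := { (inferInstance : Group Z) with mul_comm := hc }
  exact CommGroup.finite_of_fg_isMulTorsion _ ht

/-- Powers of an element central modulo the centre, if the commutators have exponent `e`. -/
theorem pow_com {G : Type u} [Group G] (x g : G)
    (hx : x * g * x⁻¹ * g⁻¹ ∈ Subgroup.center G) (n : ℕ) :
    x ^ n * g * (x ^ n)⁻¹ * g⁻¹ = (x * g * x⁻¹ * g⁻¹) ^ n := by
  set c := x * g * x⁻¹ * g⁻¹ with hc
  have h1 : x * g = c * g * x := by rw [hc]; group
  have hcc : ∀ y : G, y * c = c * y := fun y => Subgroup.mem_center_iff.1 hx y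
  have h2 : ∀ n : ℕ, x ^ n * g = c ^ n * g * x ^ n := by
    intro n
    induction n with
    | zero => simp
    | succ n ih =>
      have hcn : x * c ^ n = c ^ n * x := (Commute.pow_right (hcc x) n).eq
      calc x ^ (n + 1) * g = x * (x ^ n * g) := by rw [pow_succ']; group
        _ = x * (c ^ n * g * x ^ n) := by rw [ih]
        _ = (x * c ^ n) * g * x ^ n := by group
        _ = c ^ n * (x * g) * x ^ n := by rw [hcn]; group
        _ = c ^ n * (c * g * x) * x ^ n := by rw [h1]
        _ = c ^ (n + 1) * g * x ^ (n + 1) := by rw [pow_succ c n, pow_succ' x n]; group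
  rw [h2 n]
  group

/-- An infinite finitely generated nilpotent group has a central element of infinite order. -/
theorem exists_central {G : Type u} [Group G] (hN : Group.IsNilpotent G) :
    Group.FG G → Infinite G → ∃ z ∈ Subgroup.center G, ∀ n : ℕ, 0 < n → z ^ n ≠ 1 := by
  refine @Group.nilpotent_center_quotient_ind
    (fun G _ _ => Group.FG G → Infinite G →
      ∃ z ∈ Subgroup.center G, ∀ n : ℕ, 0 < n → z ^ n ≠ 1) G _ hN ?_ ?_
  · intro G _ _ _ hinf
    exact absurd (inferInstance : Subsingleton G) (by
      intro hs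
      exact not_finite G)
  · intro G _ _ ih hFG hinf
    by_contra hcon
    push Not at hcon
    have ht : ∀ z : Subgroup.center G, IsOfFinOrder z := by
      intro z
      obtain ⟨n, hn, h⟩ := hcon z z.2
      exact isOfFinOrder_iff_pow_eq_one.2 ⟨n, hn, Subtype.ext (by simpa using h)⟩
    have hcomm : ∀ a b : Subgroup.center G, a * b = b * a := by
      intro a b
      exact Subtype.ext (Subgroup.mem_center_iff.1 b.2 a)
    rcases finite_or_infinite (G ⧸ Subgroup.center G) with hf | hi
    · have h2 : (Subgroup.center G).FiniteIndex := Subgroup.finiteIndex_of_finite_quotient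
      have h3 : Group.FG (Subgroup.center G) := inferInstance
      have h4 : Finite (Subgroup.center G) := finite_of_comm_torsion hcomm ht
      have : Finite G := Finite.of_equiv _
        (Subgroup.groupEquivQuotientProdSubgroup (s := Subgroup.center G)).symm
      exact not_finite G
    · obtain ⟨q, hq, hq2⟩ := ih inferInstance hi
      obtain ⟨x, rfl⟩ := QuotientGroup.mk_surjective q
      have hx : ∀ g : G, x * g * x⁻¹ * g⁻¹ ∈ Subgroup.center G := by
        intro g
        rw [← QuotientGroup.eq_one_iff]
        have h := Subgroup.mem_center_iff.1 hq (g : G ⧸ Subgroup.center G)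
        rw [QuotientGroup.mk_mul, QuotientGroup.mk_mul, QuotientGroup.mk_mul, QuotientGroup.mk_inv,
          QuotientGroup.mk_inv, ← h]
        group
      have hR : Group.FG (comHom x hx).range := Group.fg_range _
      have hRf : Finite (comHom x hx).range := by
        refine finite_of_comm_torsion ?_ ?_
        · intro a b
          exact Subtype.ext (hcomm a b)
        · intro a
          obtain ⟨n, hn, h⟩ := isOfFinOrder_iff_pow_eq_one.1 (ht (a : Subgroup.center G))
          exact isOfFinOrder_iff_pow_eq_one.2 ⟨n, hn, Subtype.ext (by simpa using h)⟩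
      set e := Nat.card (comHom x hx).range with he
      have hepos : 0 < e := Nat.card_pos
      have hxe : x ^ e ∈ Subgroup.center G := by
        rw [Subgroup.mem_center_iff]
        intro g
        have h1 := pow_com x g (hx g) e
        have h2 : (x * g * x⁻¹ * g⁻¹) ^ e = 1 := by
          have h3 : (⟨comHom x hx g, ⟨g, rfl⟩⟩ : (comHom x hx).range) ^ e = 1 := pow_card_eq_one'
          have h4 := congrArg (fun y : (comHom x hx).range => ((y : Subgroup.center G) : G)) h3
          simp only [Subgroup.coe_pow, Subgroup.coe_one] at h4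
          exact h4
        rw [h2] at h1
        have h5 : x ^ e * g = g * x ^ e := by
          have := congrArg (fun y => y * g * x ^ e) h1
          simpa [mul_assoc] using this
        exact h5.symm
      refine hq2 e hepos ?_
      rw [← QuotientGroup.mk_pow]
      exact (QuotientGroup.eq_one_iff _).2 hxe

end Pool.Agent.Helper80.NIL
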