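import Pool.Agent.Helper61.NW.Goals
import Pool.Agent.Helper80.NIL.GRP

/-! Project NW (MP_266b34_co), packet CEN. -/

set_option autoImplicit false

namespace Pool.Agent.Helper80.NIL

open Pool.Agent.Helper61.NW

universe u

theorem zpow_ne {G : Type u} [Group G] {z : G} (hz : ∀ n : ℕ, 0 < n → z ^ n ≠ 1) :
    ∀ n : ℤ, z ^ n = 1 → n = 0 := by
  intro n hn
  by_contra hne
  refine hz n.natAbs (by omega) ?_
  rcases Int.lt_or_gt_of_ne hne with h | h
  · have : z ^ n.natAbs = (z ^ n)⁻¹ := by
      rw [← zpow_natCast, ← zpow_neg]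
      congr 1
      omega
    rw [this, hn, inv_one]
  · have : z ^ n.natAbs = z ^ n := by
      rw [← zpow_natCast]
      congr 1
      omega
    rw [this, hn]

theorem cen : CenStmt.{u} := by
  intro Γ _ hFG hinf hN
  obtain ⟨z, hz, h⟩ := exists_central hN hFG hinf
  exact ⟨z, fun g => Subgroup.mem_center_iff.1 hz g, zpow_ne h⟩

end Pool.Agent.Helper80.NIL
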